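import Pool.Agent.W275.ND.Stm

/-!
# Generic points over an order in `p`-adic fields with small ramification
-/

set_option autoImplicit false

namespace Pool.Agent.W131.ND.Lmk

open MvPolynomial Pool.Agent.H936R2 Pool.Agent.H927R2.RD H294UB Pool.Agent.W275.UB
open Pool.Agent.W275.ND

/-- the extension of the coefficients -/
noncomputable def mo (O Q : Type) [CommRing O] : MvPolynomial Q ℤ →+* MvPolynomial Q O :=
  MvPolynomial.map (Int.castRingHom O)

theorem mo_integral {O : Type} (Q : Type) [CommRing O] [Module.Finite ℤ O]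
    (x : MvPolynomial Q O) : (mo O Q).IsIntegralElem x := by
  induction x using MvPolynomial.induction_on with
  | C o =>
    have h1 : IsIntegral ℤ o := IsIntegral.of_finite ℤ o
    obtain ⟨f, hf, hfo⟩ := h1
    refine ⟨f.map C, hf.map C, ?_⟩
    rw [Polynomial.eval₂_map]
    have h2 : (mo O Q).comp C = (C : O →+* MvPolynomial Q O).comp (algebraMap ℤ O) :=
      RingHom.ext_int _ _
    rw [h2, ← Polynomial.hom_eval₂, hfo, map_zero]
  | add p q hp hq => exact hp.add _ hq
  | mul_X p q hp =>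
    refine hp.mul _ ?_
    have h1 : (X q : MvPolynomial Q O) = mo O Q (X q) := by simp [mo]
    rw [h1]
    exact RingHom.isIntegralElem_map _

theorem inj_of_restrict {O Q : Type} [CommRing O] [IsDomain O] [Module.Finite ℤ O] {R : Type}
    [CommRing R] [IsDomain R] (h : MvPolynomial Q O →+* R)
    (hinj : Function.Injective (h.comp (mo O Q))) : Function.Injective h := by
  let : Algebra (MvPolynomial Q ℤ) (MvPolynomial Q O) := (mo O Q).toAlgebra
  have : Algebra.IsIntegral (MvPolynomial Q ℤ) (MvPolynomial Q O) := ⟨fun x => mo_integral Q x⟩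
  rw [RingHom.injective_iff_ker_eq_bot]
  apply Ideal.eq_bot_of_comap_eq_bot (R := MvPolynomial Q ℤ)
  have h1 : (RingHom.ker h).comap (algebraMap (MvPolynomial Q ℤ) (MvPolynomial Q O)) =
      RingHom.ker (h.comp (mo O Q)) := RingHom.comap_ker _ _
  rw [h1]
  exact (RingHom.injective_iff_ker_eq_bot _).1 hinj

/-- scaled generic points are generic -/
theorem scale_ne (p : ℕ) [Fact p.Prime] {Q : Type} (θ : Q → ℤ_[p])
    (hθ : ∀ c : MvPolynomial Q ℤ, c ≠ 0 → aeval θ c ≠ 0) (r : ℕ) (c : MvPolynomial Q ℤ)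
    (hc : c ≠ 0) :
    aeval (fun q => ((p : ℚ_[p]) ^ r)⁻¹ * (θ q : ℚ_[p])) c ≠ 0 := by
  classical
  have hp0 : (p : ℚ_[p]) ≠ 0 := by exact_mod_cast (Fact.out : p.Prime).ne_zero
  set D := c.totalDegree with hD
  let k : (Q →₀ ℕ) → ℕ := fun μ => ∑ i ∈ μ.support, μ i
  have hk : ∀ μ ∈ c.support, k μ ≤ D := fun μ hμ => le_totalDegree hμ
  let c' : MvPolynomial Q ℤ := ∑ μ ∈ c.support, monomial μ (coeff μ c * (p : ℤ) ^ (r * (D - k μ)))
  have hc' : c' ≠ 0 := by
    obtain ⟨μ, hμ⟩ := MvPolynomial.support_nonempty.2 hc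
    intro h0
    have h1 : coeff μ c' = coeff μ c * (p : ℤ) ^ (r * (D - k μ)) := by
      simp only [c', coeff_sum, coeff_monomial]
      rw [Finset.sum_ite_eq' c.support μ, if_pos hμ]
    rw [h0, coeff_zero] at h1
    have h2 : coeff μ c * (p : ℤ) ^ (r * (D - k μ)) ≠ 0 := by
      refine mul_ne_zero (mem_support_iff.1 hμ) (pow_ne_zero _ ?_)
      exact_mod_cast (Fact.out : p.Prime).ne_zero
    exact h2 h1.symm
  have hkey : ((aeval θ c' : ℤ_[p]) : ℚ_[p]) = (p : ℚ_[p]) ^ (r * D) *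
      aeval (fun q => ((p : ℚ_[p]) ^ r)⁻¹ * (θ q : ℚ_[p])) c := by
    have h1 : (aeval θ c' : ℤ_[p]) = ∑ μ ∈ c.support,
        ((coeff μ c : ℤ) : ℤ_[p]) * (p : ℤ_[p]) ^ (r * (D - k μ)) *
          ∏ i ∈ μ.support, θ i ^ μ i := by
      simp only [c', map_sum, aeval_monomial]
      refine Finset.sum_congr rfl fun μ _ => ?_
      simp [Finsupp.prod]
    have h2 : (aeval (fun q => ((p : ℚ_[p]) ^ r)⁻¹ * (θ q : ℚ_[p])) c : ℚ_[p]) =
        ∑ μ ∈ c.support, ((coeff μ c : ℤ) : ℚ_[p]) *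
          ∏ i ∈ μ.support, (((p : ℚ_[p]) ^ r)⁻¹ * (θ i : ℚ_[p])) ^ μ i := by
      rw [aeval_def, eval₂_eq]
      refine Finset.sum_congr rfl fun μ _ => ?_
      simp
    have h1' : ((aeval θ c' : ℤ_[p]) : ℚ_[p]) = ∑ μ ∈ c.support,
        ((coeff μ c : ℤ) : ℚ_[p]) * (p : ℚ_[p]) ^ (r * (D - k μ)) *
          ∏ i ∈ μ.support, (θ i : ℚ_[p]) ^ μ i := by
      have h0 : ((aeval θ c' : ℤ_[p]) : ℚ_[p]) = PadicInt.Coe.ringHom (aeval θ c' : ℤ_[p]) := rfl
      rw [h0, h1, map_sum]
      refine Finset.sum_congr rfl fun μ _ => ?_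
      rw [map_mul, map_mul, map_intCast, map_pow, map_natCast, map_prod]
      congr 1
    rw [h1', h2, Finset.mul_sum]
    refine Finset.sum_congr rfl fun μ hμ => ?_
    have h3 : ∏ i ∈ μ.support, (((p : ℚ_[p]) ^ r)⁻¹ * (θ i : ℚ_[p])) ^ μ i =
        (((p : ℚ_[p]) ^ r)⁻¹) ^ k μ * ∏ i ∈ μ.support, (θ i : ℚ_[p]) ^ μ i := by
      simp only [mul_pow, Finset.prod_mul_distrib, k]
      rw [Finset.prod_pow_eq_pow_sum]
    have h4 : (p : ℚ_[p]) ^ (r * (D - k μ)) =
        (p : ℚ_[p]) ^ (r * D) * (((p : ℚ_[p]) ^ r)⁻¹) ^ k μ := by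
      have h5 := hk μ hμ
      have h6 : r * D = r * (D - k μ) + r * k μ := by
        rw [← Nat.mul_add, Nat.sub_add_cancel h5]
      rw [h6, pow_add, inv_pow, ← pow_mul, mul_assoc, mul_inv_cancel₀ (pow_ne_zero _ hp0),
        mul_one]
    rw [h3, h4]
    ring
  intro h0
  rw [h0, mul_zero] at hkey
  exact hθ c' hc' (PadicInt.ext (by rw [hkey]; rfl))

theorem card_le {O J Q : Type} [CommRing O] [IsDomain O] [Fintype J] (ω : Module.Basis J ℤ O)
    (F : Type) [Field F] [Algebra (EE Q) F] [FiniteDimensional (EE Q) F]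
    (g : MvPolynomial Q O →+* F) (hg : Function.Injective g)
    (hcomp : ∀ c, g (mo O Q c) = algebraMap (EE Q) F (algebraMap (MvPolynomial Q ℤ) (EE Q) c)) :
    Fintype.card J ≤ Module.finrank (EE Q) F := by
  classical
  have hli : LinearIndependent (EE Q) (fun j => g (C (ω j))) := by
    rw [Fintype.linearIndependent_iff]
    intro f hf
    obtain ⟨b, hb⟩ := IsLocalization.exist_integer_multiples
      (nonZeroDivisors (MvPolynomial Q ℤ)) (Finset.univ : Finset J) f
    have hb' : ∀ j, ∃ c : MvPolynomial Q ℤ, algebraMap (MvPolynomial Q ℤ) (EE Q) c =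
        (b : MvPolynomial Q ℤ) • f j := fun j => hb j (Finset.mem_univ j)
    choose c hc using hb'
    have hb0 : algebraMap (MvPolynomial Q ℤ) (EE Q) (b : MvPolynomial Q ℤ) ≠ 0 := by
      intro h0
      have h1 := (injective_iff_map_eq_zero (algebraMap (MvPolynomial Q ℤ) (EE Q))).1
        (IsFractionRing.injective _ _) _ h0
      exact nonZeroDivisors.ne_zero b.2 h1
    have h1 : g (∑ j, mo O Q (c j) * C (ω j)) = 0 := by
      rw [map_sum]
      have h2 : ∀ j, g (mo O Q (c j) * C (ω j)) =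
          algebraMap (EE Q) F (algebraMap (MvPolynomial Q ℤ) (EE Q) b) * (f j • g (C (ω j))) := by
        intro j
        rw [map_mul, hcomp, hc, Algebra.smul_def, map_mul, Algebra.smul_def]
        ring
      rw [Finset.sum_congr rfl fun j _ => h2 j, ← Finset.mul_sum, hf, mul_zero]
    have h2 : ∑ j, mo O Q (c j) * C (ω j) = 0 :=
      (injective_iff_map_eq_zero g).1 hg _ h1
    have h3 : ∀ j, c j = 0 := by
      intro j
      ext μ
      have h4 := congrArg (coeff μ) h2
      rw [coeff_sum, coeff_zero] at h4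
      have h5 : ∑ j, (coeff μ (c j)) • ω j = 0 := by
        rw [← h4]
        refine Finset.sum_congr rfl fun j _ => ?_
        rw [mul_comm (mo O Q (c j)), coeff_C_mul, zsmul_eq_mul, mul_comm]
        simp [mo, coeff_map]
      have h6 := Fintype.linearIndependent_iff.1 ω.linearIndependent
        (fun j => coeff μ (c j)) h5 j
      rw [coeff_zero]
      exact h6
    intro j
    have h4 := hc j
    rw [h3 j, map_zero, Algebra.smul_def] at h4
    rcases mul_eq_zero.1 h4.symm with h5 | h5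
    · exact absurd h5 hb0
    · exact h5
  exact hli.fintype_card_le_finrank

theorem main : S_theta2 → S_tensor → S_nfp → S_norm → S_lmk := by
  intro hθ hT hN _ O J _ _ _ ω p _ σ₀ ι _ a r M d L _ _ _ σ hfin
  classical
  have hfinO : Module.Finite ℤ O := Module.Finite.of_basis ω
  have hgn : Function.Injective (gn (ι × J) L) :=
    (algebraMap (EE (ι × J)) L).injective.comp (IsFractionRing.injective _ _)
  let Φ : MvPolynomial (ι × J) O →+* L := eval₂Hom σ (fun q => gn (ι × J) L (X q))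
  have hΦ : Φ.comp (mo O (ι × J)) = gn (ι × J) L := by
    apply MvPolynomial.ringHom_ext'
    · exact RingHom.ext_int _ _
    · intro q
      simp [Φ, mo]
  have hΦinj : Function.Injective Φ := inj_of_restrict Φ (by rw [hΦ]; exact hgn)
  have hmo : Function.Injective (mo O (ι × J)) := by
    have h1 : Function.Injective (Φ ∘ mo O (ι × J)) := by
      rw [← RingHom.coe_comp, hΦ]
      exact hgn
    exact h1.of_comp
  let F1 : Type := FractionRing (MvPolynomial (ι × J) O)
  let algF1L : Algebra F1 L := (IsFractionRing.lift hΦinj : F1 →+* L).toAlgebra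
  have hE : Function.Injective ((algebraMap (MvPolynomial (ι × J) O) F1).comp (mo O (ι × J))) :=
    (IsFractionRing.injective (MvPolynomial (ι × J) O) F1).comp hmo
  let algEF1 : Algebra (EE (ι × J)) F1 := (IsFractionRing.lift hE : EE (ι × J) →+* F1).toAlgebra
  have hF1L : ∀ x : MvPolynomial (ι × J) O,
      algebraMap F1 L (algebraMap (MvPolynomial (ι × J) O) F1 x) = Φ x := fun x =>
    IsFractionRing.lift_algebraMap hΦinj x
  have hEF1 : ∀ c : MvPolynomial (ι × J) ℤ, algebraMap (EE (ι × J)) F1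
      (algebraMap (MvPolynomial (ι × J) ℤ) (EE (ι × J)) c) =
      algebraMap (MvPolynomial (ι × J) O) F1 (mo O (ι × J) c) := fun c =>
    IsFractionRing.lift_algebraMap hE c
  have htow : IsScalarTower (EE (ι × J)) F1 L := IsScalarTower.of_algebraMap_eq' (by
    apply IsLocalization.ringHom_ext (nonZeroDivisors (MvPolynomial (ι × J) ℤ))
    apply MvPolynomial.ringHom_ext'
    · exact RingHom.ext_int _ _
    · intro c
      change algebraMap (EE (ι × J)) L (algebraMap (MvPolynomial (ι × J) ℤ) (EE (ι × J)) (X c)) =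
        algebraMap F1 L (algebraMap (EE (ι × J)) F1
          (algebraMap (MvPolynomial (ι × J) ℤ) (EE (ι × J)) (X c)))
      rw [hEF1, hF1L]
      exact (DFunLike.congr_fun hΦ (X c)).symm)
  have hfd1 : FiniteDimensional (EE (ι × J)) F1 := FiniteDimensional.left (EE (ι × J)) F1 L
  have hfd2 : FiniteDimensional F1 L := FiniteDimensional.right (EE (ι × J)) F1 L
  have hcard : Fintype.card J ≤ Module.finrank (EE (ι × J)) F1 :=
    card_le ω F1 (algebraMap (MvPolynomial (ι × J) O) F1) (IsFractionRing.injective _ _)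
      (fun c => (hEF1 c).symm)
  have hmul : Module.finrank (EE (ι × J)) F1 * Module.finrank F1 L =
      Module.finrank (EE (ι × J)) L := Module.finrank_mul_finrank _ _ _
  have hlt : Module.finrank F1 L < d := by
    by_contra hcon
    have h1 : Fintype.card J * d ≤ Module.finrank (EE (ι × J)) F1 * Module.finrank F1 L :=
      Nat.mul_le_mul hcard (not_lt.1 hcon)
    rw [hmul, mul_comm] at h1
    omega
  obtain ⟨θ, hθ1, hθ2⟩ := hθ p (ι × J) (fun q => ((ω.repr 1 q.2 : ℤ) : ℤ_[p]) * (a q.1 : ℤ_[p])) M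
  have hp0 : (p : ℚ_[p]) ≠ 0 := by exact_mod_cast (Fact.out : p.Prime).ne_zero
  -- the embedding of `F1`
  let Θ : MvPolynomial (ι × J) O →+* ℚ_[p] := eval₂Hom ((algebraMap ℤ_[p] ℚ_[p]).comp σ₀)
    (fun q => ((p : ℚ_[p]) ^ r)⁻¹ * (θ q : ℚ_[p]))
  have hΘ : ∀ c, Θ (mo O (ι × J) c) =
      aeval (fun q => ((p : ℚ_[p]) ^ r)⁻¹ * (θ q : ℚ_[p])) c := by
    intro c
    have h1 : Θ.comp (mo O (ι × J)) =
        (aeval (fun q => ((p : ℚ_[p]) ^ r)⁻¹ * (θ q : ℚ_[p])) :
          MvPolynomial (ι × J) ℤ →ₐ[ℤ] ℚ_[p]).toRingHom := by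
      apply MvPolynomial.ringHom_ext'
      · exact RingHom.ext_int _ _
      · intro q
        simp [Θ, mo]
    exact DFunLike.congr_fun h1 c
  have hΘinj : Function.Injective Θ := by
    apply inj_of_restrict
    rw [injective_iff_map_eq_zero]
    intro c hc
    by_contra hc0
    have h1 : Θ (mo O (ι × J) c) = 0 := hc
    rw [hΘ] at h1
    exact scale_ne p θ hθ2 r c hc0 h1
  obtain ⟨L', _, _, ψ, hfd, hfr, hψ⟩ := hT F1 L ℚ_[p] (IsFractionRing.lift hΘinj)
  obtain ⟨A, _, _, _, _, _, π, hπ, hπp, hπD, -, hz⟩ := hN p (d - 1) L' (by omega)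
  have hd1 : d - 1 + 1 = d := by omega
  rw [hd1] at hπD
  have hAinj : Function.Injective (algebraMap A L') := IsFractionRing.injective A L'
  choose τ₀ hτ₀ using hz
  let τ : ℤ_[p] →+* A :=
    { toFun := τ₀
      map_one' := hAinj (by rw [hτ₀]; simp)
      map_mul' := fun x y => hAinj (by rw [hτ₀, map_mul, hτ₀, hτ₀]; simp)
      map_zero' := hAinj (by rw [hτ₀]; simp)
      map_add' := fun x y => hAinj (by rw [hτ₀, map_add, hτ₀, hτ₀]; simp) }
  have hτ : ∀ z, algebraMap A L' (τ z) = algebraMap ℚ_[p] L' (z : ℚ_[p]) := hτ₀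
  have hψΦ : ∀ x : MvPolynomial (ι × J) O, ψ (Φ x) = algebraMap ℚ_[p] L' (Θ x) := by
    intro x
    rw [← hF1L, hψ, IsFractionRing.lift_algebraMap]
  have hψσ : ∀ o : O, ψ (σ o) = algebraMap A L' (τ (σ₀ o)) := by
    intro o
    have h1 := hψΦ (C o)
    have h2 : Φ (C o) = σ o := by simp [Φ]
    have h3 : Θ (C o) = ((σ₀ o : ℤ_[p]) : ℚ_[p]) := by simp [Θ]
    rw [h2, h3] at h1
    rw [h1, hτ]
  have hψX : ∀ q : ι × J, (p : L') ^ r * ψ (gn (ι × J) L (X q)) = algebraMap A L' (τ (θ q)) := by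
    intro q
    have h1 := hψΦ (X q)
    have h2 : Φ (X q) = gn (ι × J) L (X q) := by simp [Φ]
    have h3 : Θ (X q) = ((p : ℚ_[p]) ^ r)⁻¹ * (θ q : ℚ_[p]) := by simp [Θ]
    rw [h2, h3] at h1
    rw [h1, hτ]
    have h4 : (p : L') ^ r = algebraMap ℚ_[p] L' ((p : ℚ_[p]) ^ r) := by
      rw [map_pow, map_natCast]
    rw [h4, ← map_mul, ← mul_assoc, mul_inv_cancel₀ (pow_ne_zero _ hp0), one_mul]
  refine ⟨L', inferInstance, ψ, A, inferInstance, inferInstance, inferInstance, inferInstance,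
    inferInstance, π, fun i => ∑ j, τ (σ₀ (ω j)) * τ (θ (i, j)), hπ, hπp, hπD, ?_, ?_⟩
  · intro i
    show algebraMap A L' (∑ j, τ (σ₀ (ω j)) * τ (θ (i, j))) =
      (p : L') ^ r * ψ (∑ j, σ (ω j) * gn (ι × J) L (X (i, j)))
    rw [map_sum, map_sum, Finset.mul_sum]
    refine Finset.sum_congr rfl fun j _ => ?_
    rw [map_mul, map_mul, hψσ, ← hψX]
    ring
  · intro i
    have hone : ∑ j, ((ω.repr 1 j : ℤ) : ℤ_[p]) * σ₀ (ω j) = 1 := by
      have h1 := congrArg σ₀ (ω.sum_repr 1)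
      rw [map_sum, map_one σ₀] at h1
      rw [← h1]
      refine Finset.sum_congr rfl fun j _ => ?_
      rw [zsmul_eq_mul, map_mul, map_intCast]
    have e : (∑ j, τ (σ₀ (ω j)) * τ (θ (i, j))) - (a i : A) =
        τ (∑ j, σ₀ (ω j) * (θ (i, j) - ((ω.repr 1 j : ℤ) : ℤ_[p]) * (a i : ℤ_[p]))) := by
      have e1 : (a i : A) = τ ((∑ j, ((ω.repr 1 j : ℤ) : ℤ_[p]) * σ₀ (ω j)) * (a i : ℤ_[p])) := by
        rw [hone, one_mul, map_intCast]
      rw [e1, Finset.sum_mul, map_sum, map_sum, ← Finset.sum_sub_distrib]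
      refine Finset.sum_congr rfl fun j _ => ?_
      rw [← map_mul, ← map_sub]
      congr 1
      ring
    rw [e]
    have h1 : (p : ℤ_[p]) ^ M ∣
        ∑ j, σ₀ (ω j) * (θ (i, j) - ((ω.repr 1 j : ℤ) : ℤ_[p]) * (a i : ℤ_[p])) :=
      Finset.dvd_sum fun j _ => Dvd.dvd.mul_left (hθ1 (i, j)) _
    have h2 := map_dvd τ h1
    rwa [map_pow, map_natCast] at h2

end Pool.Agent.W131.ND.Lmk
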